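import Pool.Agent.Q92.ISO.TRA

/-! Project ISO, job CHA: isothermal charts of a surface from the local theorem. -/

set_option autoImplicit false

open MeasureTheory Set Filter Metric Bundle
open scoped ContDiff Topology Manifold

namespace Pool.Agent.Q92.ISO.CHA

open Pool.Agent.Q63.ISO Pool.Agent.Q92.ISO.TRA

universe u

/-- the Laplace-Beltrami operator depends on the germ -/
theorem LB_congr (𝔤 : P → Matrix (Fin 2) (Fin 2) ℝ) {h h' : P → ℝ} {z : P} (he : h =ᶠ[𝓝 z] h') :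
    LB 𝔤 h z = LB 𝔤 h' z := by
  unfold LB
  congr 1
  refine Finset.sum_congr rfl fun i _ => ?_
  have h1 : (fun y => √((𝔤 y).det) * ∑ j, (𝔤 y)⁻¹ i j * fderiv ℝ h y (be j)) =ᶠ[𝓝 z]
      fun y => √((𝔤 y).det) * ∑ j, (𝔤 y)⁻¹ i j * fderiv ℝ h' y (be j) := by
    filter_upwards [he.eventuallyEq_nhds] with y hy
    rw [hy.fderiv_eq]
  rw [h1.fderiv_eq]

theorem proof_cha (hG : S_GRA.{u}) : S_CHA.{u} := by
  intro hL M _ _ _ _ _ x₀
  obtain ⟨hto, hgs, hgp⟩ := hG M x₀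
  set e := extChartAt (𝓡 2) x₀ with he
  have hz₀ : e x₀ ∈ e.target := mem_extChartAt_target x₀
  obtain ⟨W, ψ, χ, ρ, hzW, hWt, hWo, hUo, hψ, hχ, hinv, hρ, hpos, hconf, hlb⟩ :=
    hL e.target (e x₀) (gram x₀) hto hz₀ hgs fun z hz => (hgp z hz).1
  have hsymm : ContMDiffOn 𝓘(ℝ, P) (𝓡 2) ∞ e.symm e.target := contMDiffOn_extChartAt_symm x₀
  have hch : ContMDiffOn (𝓡 2) 𝓘(ℝ, P) ∞ e e.source := by
    have := contMDiffOn_extChartAt (I := 𝓡 2) (n := ∞) (x := x₀)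
    rwa [← extChartAt_source (𝓡 2)] at this
  have hχW : ∀ w ∈ ψ '' W, χ w ∈ W := by
    rintro w ⟨z, hz, rfl⟩
    rw [hinv z hz]
    exact hz
  have hχm : ContMDiffOn 𝓘(ℝ, ℂ) 𝓘(ℝ, P) ∞ χ (ψ '' W) := hχ.contMDiffOn
  have hφ : ContMDiffOn 𝓘(ℝ, ℂ) (𝓡 2) ∞ (fun w => e.symm (χ w)) (ψ '' W) :=
    hsymm.comp hχm fun w hw => hWt (hχW w hw)
  have himg : (fun w => e.symm (χ w)) '' (ψ '' W) = e.source ∩ e ⁻¹' W := by
    ext m
    constructor
    · rintro ⟨w, hw, rfl⟩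
      have h1 := hχW w hw
      refine ⟨e.map_target (hWt h1), ?_⟩
      change e (e.symm (χ w)) ∈ W
      rw [e.right_inv (hWt h1)]
      exact h1
    · rintro ⟨h1, h2⟩
      refine ⟨ψ (e m), ⟨e m, h2, rfl⟩, ?_⟩
      change e.symm (χ (ψ (e m))) = m
      rw [hinv _ h2, e.left_inv h1]
  have hopen : IsOpen (e.source ∩ e ⁻¹' W) := isOpen_extChartAt_preimage' x₀ hWo
  have hψm : ContMDiffOn (𝓡 2) 𝓘(ℝ, ℂ) ∞ (fun m => ψ (e m)) (e.source ∩ e ⁻¹' W) :=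
    hψ.contMDiffOn.comp (hch.mono inter_subset_left) fun m hm => hm.2
  -- the derivative of the chart
  have hder : ∀ w ∈ ψ '' W, ∀ v : ℂ, ∃ t : P, fderiv ℝ ψ (χ w) t = v ∧
      (mfderiv 𝓘(ℝ, ℂ) (𝓡 2) (fun w => e.symm (χ w)) w v : P) = (dch x₀ (χ w) t : P) := by
    intro w hw v
    have h1 : MDifferentiableAt 𝓘(ℝ, ℂ) 𝓘(ℝ, P) χ w :=
      (hχm.contMDiffAt (hUo.mem_nhds hw)).mdifferentiableAt (by norm_num)
    have h2 : MDifferentiableAt 𝓘(ℝ, P) (𝓡 2) e.symm (χ w) :=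
      (hsymm.contMDiffAt (hto.mem_nhds (hWt (hχW w hw)))).mdifferentiableAt (by norm_num)
    have h3 := mfderiv_comp w h2 h1
    refine ⟨fderiv ℝ χ w v, ?_, ?_⟩
    · have h4 : (fun y => ψ (χ y)) =ᶠ[𝓝 w] fun y => y := by
        filter_upwards [hUo.mem_nhds hw] with y hy
        obtain ⟨z, hz, rfl⟩ := hy
        rw [hinv z hz]
      have h5 : HasFDerivAt (fun y => ψ (χ y)) ((fderiv ℝ ψ (χ w)).comp (fderiv ℝ χ w)) w := by
        have h6 : DifferentiableAt ℝ ψ (χ w) :=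
          (hψ.contDiffAt (hWo.mem_nhds (hχW w hw))).differentiableAt (by norm_num)
        have h7 : DifferentiableAt ℝ χ w :=
          (hχ.contDiffAt (hUo.mem_nhds hw)).differentiableAt (by norm_num)
        exact h6.hasFDerivAt.comp w h7.hasFDerivAt
      have h8 := (h5.congr_of_eventuallyEq h4.symm).unique (hasFDerivAt_id w)
      have h9 := congrArg (fun L : ℂ →L[ℝ] ℂ => L v) h8
      exact h9
    · have e1 : (mfderiv 𝓘(ℝ, ℂ) (𝓡 2) (fun w => e.symm (χ w)) w v : P) =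
          (mfderiv 𝓘(ℝ, P) (𝓡 2) e.symm (χ w) (mfderiv 𝓘(ℝ, ℂ) 𝓘(ℝ, P) χ w v) : P) :=
        congrArg (fun L : ℂ →L[ℝ] P => L v) h3
      have e3 : (mfderiv 𝓘(ℝ, ℂ) 𝓘(ℝ, P) χ w v : P) = fderiv ℝ χ w v :=
        congrArg (fun L : ℂ →L[ℝ] P => L v) mfderiv_eq_fderiv
      refine e1.trans ?_
      exact congrArg (fun t : P => (mfderiv 𝓘(ℝ, P) (𝓡 2) e.symm (χ w) t : P)) e3
  refine ⟨ψ '' W, fun w => e.symm (χ w), fun m => ψ (e m), ρ, ?_, ?_, ?_⟩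
  · rw [himg]
    exact ⟨mem_extChartAt_source x₀, hzW⟩
  · refine ⟨hUo, ?_, hφ, ?_, ?_, hρ, hpos, ?_⟩
    · rw [himg]
      exact hopen
    · rw [himg]
      exact hψm
    · rintro w ⟨z, hz, rfl⟩
      change ψ (e (e.symm (χ (ψ z)))) = ψ z
      rw [hinv z hz, e.right_inv (hWt hz)]
    · intro w hw v
      obtain ⟨t, ht, hd⟩ := hder w hw v
      have h1 := (hgp (χ w) (hWt (hχW w hw))).2 t
      have h2 := hconf (χ w) (hχW w hw) t
      have h3 : ψ (χ w) = w := by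
        obtain ⟨z, hz, rfl⟩ := hw
        rw [hinv z hz]
      rw [h3, ht] at h2
      rw [← h2, ← h1]
      have h4 : ‖mfderiv 𝓘(ℝ, ℂ) (𝓡 2) (fun w => e.symm (χ w)) w v‖ = ‖dch x₀ (χ w) t‖ := by
        have h5 : ∀ a b : P, a = b →
            ‖(show TangentSpace (𝓡 2) (e.symm (χ w)) from a)‖ =
            ‖(show TangentSpace (𝓡 2) (e.symm (χ w)) from b)‖ := by
          rintro a b rfl
          rfl
        exact h5 _ _ hd
      rw [h4]
  · intro lam f hf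
    obtain ⟨hfs, hfe⟩ := hf
    have h1 : ContMDiffOn 𝓘(ℝ, ℂ) 𝓘(ℝ, ℝ) ∞ (fun w => f (e.symm (χ w))) (ψ '' W) :=
      hfs.comp_contMDiffOn hφ
    have h2 : ContDiffOn ℝ ∞ (fun w => f (e.symm (χ w))) (ψ '' W) := h1.contDiffOn
    refine ⟨h2, ?_⟩
    rintro w ⟨z, hz, rfl⟩
    have h3 := hlb _ h2 z hz
    have h4 : (fun y => f (e.symm (χ (ψ y)))) =ᶠ[𝓝 z] fun y => f (e.symm y) := by
      filter_upwards [hWo.mem_nhds hz] with y hy
      rw [hinv y hy]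
    have h5 := hfe x₀ z (hWt hz)
    rw [LB_congr _ h4] at h3
    rw [h3]
    change ρ (ψ z) * LB (gram x₀) (fun y => f (e.symm y)) z +
      lam * ρ (ψ z) * f (e.symm (χ (ψ z))) = 0
    rw [hinv z hz]
    linear_combination ρ (ψ z) * h5

end Pool.Agent.Q92.ISO.CHA
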