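import Pool.Agent.Q63.ISO.Stm2

/-! Project ISO, job TRA: transition maps between isothermal charts are isometries. -/

set_option autoImplicit false

open MeasureTheory Set Filter Metric Bundle
open scoped ContDiff Topology Manifold

namespace Pool.Agent.Q92.ISO.TRA

open Pool.Agent.Q63.ISO

universe u

section
variable {M : Type u} [TopologicalSpace M] [ChartedSpace P M]
  [RiemannianBundle (fun (x : M) ↦ TangentSpace (𝓡 2) x)]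

/-- the norm of one vector at two equal points -/
theorem norm_base {x y : M} (h : x = y) (v : P) :
    ‖(show TangentSpace (𝓡 2) x from v)‖ = ‖(show TangentSpace (𝓡 2) y from v)‖ := by
  subst h
  rfl

end

theorem proof_tra : S_TRA.{u} := by
  intro M _ _ _ _ U U' φ φ' ψ ψ' ρ ρ' h h' z hz w hw hzw
  have hφ : ContMDiffAt 𝓘(ℝ, ℂ) (𝓡 2) ∞ φ z := h.smoothφ.contMDiffAt (h.openU.mem_nhds hz)
  have hmem : φ z ∈ φ' '' U' := ⟨w, hw, hzw.symm⟩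
  have hψ' : ContMDiffAt (𝓡 2) 𝓘(ℝ, ℂ) ∞ ψ' (φ z) :=
    h'.smoothψ.contMDiffAt (h'.openI.mem_nhds hmem)
  have hτz : ψ' (φ z) = w := by rw [hzw, h'.inv w hw]
  have hev : ∀ᶠ z' in 𝓝 z, ψ' (φ z') ∈ U' ∧ φ' (ψ' (φ z')) = φ z' := by
    have h1 : ∀ᶠ z' in 𝓝 z, φ z' ∈ φ' '' U' :=
      hφ.continuousAt.eventually (h'.openI.mem_nhds hmem)
    filter_upwards [h1] with z' hz'
    obtain ⟨u, hu, he⟩ := hz'
    rw [← he, h'.inv u hu]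
    exact ⟨hu, rfl⟩
  have hτ : ContMDiffAt 𝓘(ℝ, ℂ) 𝓘(ℝ, ℂ) ∞ (fun y => ψ' (φ y)) z := hψ'.comp z hφ
  have hτd : DifferentiableAt ℝ (fun y => ψ' (φ y)) z :=
    hτ.contDiffAt.differentiableAt (by norm_num)
  refine ⟨fun y => ψ' (φ y), hτz, hev, hτd, fun v => ?_⟩
  have hφ'w : ContMDiffAt 𝓘(ℝ, ℂ) (𝓡 2) ∞ φ' (ψ' (φ z)) := by
    rw [hτz]
    exact h'.smoothφ.contMDiffAt (h'.openU.mem_nhds hw)
  have hEq : φ =ᶠ[𝓝 z] fun y => φ' (ψ' (φ y)) := hev.mono fun y hy => hy.2.symm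
  have h1 := hEq.mfderiv_eq (I := 𝓘(ℝ, ℂ)) (I' := 𝓡 2)
  have h2 := mfderiv_comp z (g := φ') (f := fun y => ψ' (φ y))
    (hφ'w.mdifferentiableAt (by norm_num)) (hτ.mdifferentiableAt (by norm_num))
  have h3 := h.conf z hz v
  have h4 := h'.conf w hw (fderiv ℝ (fun y => ψ' (φ y)) z v)
  rw [← h4, ← h3]
  have hu : ∀ u : ℂ, u = w → ∀ t : ℂ, (mfderiv 𝓘(ℝ, ℂ) (𝓡 2) φ' u t : P) =
      (mfderiv 𝓘(ℝ, ℂ) (𝓡 2) φ' w t : P) := by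
    rintro u rfl t
    rfl
  have hAB : (mfderiv 𝓘(ℝ, ℂ) (𝓡 2) φ z v : P) =
      (mfderiv 𝓘(ℝ, ℂ) (𝓡 2) φ' w (fderiv ℝ (fun y => ψ' (φ y)) z v) : P) := by
    have e1 : (mfderiv 𝓘(ℝ, ℂ) (𝓡 2) φ z v : P) =
        (mfderiv 𝓘(ℝ, ℂ) (𝓡 2) (φ' ∘ fun y => ψ' (φ y)) z v : P) :=
      congrArg (fun L : ℂ →L[ℝ] P => L v) h1
    have e2 : (mfderiv 𝓘(ℝ, ℂ) (𝓡 2) (φ' ∘ fun y => ψ' (φ y)) z v : P) =
        (mfderiv 𝓘(ℝ, ℂ) (𝓡 2) φ' (ψ' (φ z)) (mfderiv 𝓘(ℝ, ℂ) 𝓘(ℝ, ℂ)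
          (fun y => ψ' (φ y)) z v) : P) :=
      congrArg (fun L : ℂ →L[ℝ] P => L v) h2
    have e3 : (mfderiv 𝓘(ℝ, ℂ) 𝓘(ℝ, ℂ) (fun y => ψ' (φ y)) z v : ℂ) =
        fderiv ℝ (fun y => ψ' (φ y)) z v :=
      congrArg (fun L : ℂ →L[ℝ] ℂ => L v) mfderiv_eq_fderiv
    refine e1.trans (e2.trans ((hu _ hτz _).trans ?_))
    exact congrArg (fun t : ℂ => (mfderiv 𝓘(ℝ, ℂ) (𝓡 2) φ' w t : P)) e3
  have hn := norm_base hzw (mfderiv 𝓘(ℝ, ℂ) (𝓡 2) φ z v : P)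
  have hn2 : ‖mfderiv 𝓘(ℝ, ℂ) (𝓡 2) φ z v‖ =
      ‖mfderiv 𝓘(ℝ, ℂ) (𝓡 2) φ' w (fderiv ℝ (fun y => ψ' (φ y)) z v)‖ := by
    refine hn.trans ?_
    rw [hAB]
  rw [hn2]

end Pool.Agent.Q92.ISO.TRA
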